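import Pool.Agent.Helper313SN.Iso
import Pool.Agent.H884R2.Sko.Split

/-!
# Primes which split completely, and polynomials which split modulo them
-/

set_option autoImplicit false
set_option linter.all false

open Module Polynomial
open scoped Classical

namespace Pool.Agent.Helper313WR

open Pool.Agent.Helper313LB Pool.Agent.Helper313SN

theorem exists_int_mul (u : ℚ[X]) : ∃ N : ℤ, N ≠ 0 ∧ ∃ U : ℤ[X],
    U.map (Int.castRingHom ℚ) = C (N : ℚ) * u := by
  obtain ⟨b, hb, h⟩ := IsLocalization.integerNormalization_spec (nonZeroDivisors ℤ) u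
  refine ⟨b, nonZeroDivisors.ne_zero hb, IsLocalization.integerNormalization (nonZeroDivisors ℤ) u, ?_⟩
  have h2 : (algebraMap ℤ ℚ) = Int.castRingHom ℚ := rfl
  rw [h2] at h
  rw [h]
  ext i
  simp

/-- a polynomial, irreducible over `ℚ`, is separable modulo all large primes -/
theorem sep_mod {f : ℤ[X]} (hF : Irreducible (f.map (Int.castRingHom ℚ))) :
    ∃ D : ℕ, ∀ p : ℕ, p.Prime → D < p → (f.map (Int.castRingHom (ZMod p))).Separable := by
  obtain ⟨u, v, huv⟩ := hF.separable
  obtain ⟨N, hN, U, hU⟩ := exists_int_mul u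
  obtain ⟨M, hM, V, hV⟩ := exists_int_mul v
  have key : C M * U * f + C N * V * derivative f = C (M * N) := by
    apply Polynomial.map_injective (Int.castRingHom ℚ) Int.cast_injective
    rw [Polynomial.map_add, Polynomial.map_mul, Polynomial.map_mul, Polynomial.map_mul,
      Polynomial.map_mul, hU, hV, map_C, map_C, map_C, ← derivative_map]
    simp only [eq_intCast, Int.cast_mul, C_mul]
    linear_combination (C (M : ℚ) * C (N : ℚ)) * huv
  refine ⟨(M * N).natAbs, fun p hp hD => ?_⟩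
  have : Fact (p : ℕ).Prime := ⟨hp⟩
  have hne : ((M * N : ℤ) : ZMod p) ≠ 0 := by
    rw [Ne, ZMod.intCast_zmod_eq_zero_iff_dvd]
    intro h
    have h1 : (M * N).natAbs ≠ 0 := Int.natAbs_ne_zero.2 (mul_ne_zero hM hN)
    have h2 : p ∣ (M * N).natAbs := Int.natCast_dvd.1 h
    exact absurd (Nat.le_of_dvd (Nat.pos_of_ne_zero h1) h2) (by omega)
  have h1 := congrArg (Polynomial.map (Int.castRingHom (ZMod p))) key
  rw [Polynomial.map_add, Polynomial.map_mul, Polynomial.map_mul, Polynomial.map_mul,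
      Polynomial.map_mul, map_C, map_C, map_C, ← derivative_map] at h1
  simp only [eq_intCast] at h1
  refine ⟨C (((M * N : ℤ) : ZMod p)⁻¹) * (C ((M : ℤ) : ZMod p) * U.map (Int.castRingHom (ZMod p))),
    C (((M * N : ℤ) : ZMod p)⁻¹) * (C ((N : ℤ) : ZMod p) * V.map (Int.castRingHom (ZMod p))), ?_⟩
  have h2 : C (((M * N : ℤ) : ZMod p)⁻¹) * C ((M * N : ℤ) : ZMod p) = 1 := by
    rw [← C_mul, inv_mul_cancel₀ hne, C_1]
  rw [← h2]
  linear_combination (C (((M * N : ℤ) : ZMod p)⁻¹)) * h1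

/-- a root is determined by its reduction if the reduction of the polynomial is separable -/
theorem root_unique {A κ : Type} [CommRing A] [IsDomain A] [Field κ] (r : A →+* κ) {g : A[X]}
    (hsep : (g.map r).Separable) {x x' : A} (hx : g.eval x = 0) (hx' : g.eval x' = 0)
    (h : r x = r x') : x = x' := by
  by_contra hne
  obtain ⟨q, hq⟩ := dvd_iff_isRoot.2 (show g.IsRoot x from hx)
  have h1 : (x' - x) * q.eval x' = 0 := by
    rw [hq, eval_mul, eval_sub, eval_X, eval_C] at hx'
    exact hx'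
  have h2 : q.eval x' = 0 := (mul_eq_zero.1 h1).resolve_left (sub_ne_zero.2 (Ne.symm hne))
  have h3 : (q.map r).eval (r x) = 0 := by
    rw [h, eval_map_apply, h2, map_zero]
  have h4 : g.map r = (X - C (r x)) * q.map r := by
    rw [hq, Polynomial.map_mul, Polynomial.map_sub, map_X, map_C]
  obtain ⟨a, b, hab⟩ := hsep
  have h5 := congrArg (Polynomial.eval (r x)) hab
  rw [h4] at h5
  simp [h3] at h5

/-- distinct elements of `ZMod ℓ` of sum zero -/
theorem exists_red0 {n ℓ : ℕ} (hn : 3 ≤ n) [Fact ℓ.Prime] (hℓ : n < ℓ) :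
    ∃ (b : Fin (n - 1) → ℤ) (S : Finset (ZMod ℓ)),
      P n (fun j => (b j : ZMod ℓ)) = ∏ c ∈ S, (X - C c) := by
  have h2 : (2 : ZMod ℓ) ≠ 0 := by
    have : ((2 : ℕ) : ZMod ℓ) ≠ 0 := by
      rw [Ne, ZMod.natCast_eq_zero_iff]
      intro h
      have := Nat.le_of_dvd (by norm_num) h
      omega
    exact_mod_cast this
  set m : ZMod ℓ := ((n * (n - 1) : ℕ) : ZMod ℓ) / (2 * n) with hm
  have hn0 : ((n : ℕ) : ZMod ℓ) ≠ 0 := by
    rw [Ne, ZMod.natCast_eq_zero_iff]
    intro h
    have := Nat.le_of_dvd (by omega) h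
    omega
  let f : ℕ → ZMod ℓ := fun i => (i : ZMod ℓ) - m
  have hinj : Set.InjOn f (Finset.range n : Set ℕ) := by
    intro i hi j hj hij
    rw [Finset.mem_coe, Finset.mem_range] at hi hj
    have h3 : (i : ZMod ℓ) = (j : ZMod ℓ) := sub_left_injective hij
    rw [ZMod.natCast_eq_natCast_iff'] at h3
    rwa [Nat.mod_eq_of_lt (by omega), Nat.mod_eq_of_lt (by omega)] at h3
  let S : Finset (ZMod ℓ) := (Finset.range n).image f
  have hS : S.card = n := by
    rw [Finset.card_image_of_injOn hinj, Finset.card_range]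
  have hsum : ∑ c ∈ S, c = 0 := by
    rw [Finset.sum_image (by exact hinj)]
    have h3 : (2 : ZMod ℓ) * ∑ i ∈ Finset.range n, f i = 0 := by
      have h4 := Finset.sum_range_id_mul_two n
      have h5 : ((∑ i ∈ Finset.range n, i : ℕ) : ZMod ℓ) * 2 = ((n * (n - 1) : ℕ) : ZMod ℓ) := by
        rw [← h4]
        push_cast
        ring
      have h6 : ∑ i ∈ Finset.range n, f i = ((∑ i ∈ Finset.range n, i : ℕ) : ZMod ℓ) - n * m := by
        simp only [f]
        rw [Finset.sum_sub_distrib, Finset.sum_const, Finset.card_range, nsmul_eq_mul]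
        push_cast
        ring
      rw [h6, mul_sub, mul_comm, h5, hm]
      field_simp
      ring
    exact (mul_eq_zero.1 h3).resolve_left h2
  have hpm : (∏ c ∈ S, (X - C c)).Monic := monic_prod_X_sub_C (fun c => c) S
  have hd : (∏ c ∈ S, (X - C c)).natDegree = n := by
    rw [natDegree_finset_prod_X_sub_C_eq_card, hS]
  have hnc : (∏ c ∈ S, (X - C c)).nextCoeff = 0 := by
    rw [prod_X_sub_C_nextCoeff (fun c => c), hsum, neg_zero]
  refine ⟨fun j => ((((∏ c ∈ S, (X - C c)) : (ZMod ℓ)[X]).coeff (j : ℕ)).val : ℤ), S, ?_⟩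
  have e : (fun j : Fin (n - 1) => (((((((∏ c ∈ S, (X - C c)) : (ZMod ℓ)[X]).coeff (j : ℕ)).val : ℕ) : ℤ)) : ZMod ℓ)) =
      fun j : Fin (n - 1) => ((∏ c ∈ S, (X - C c)) : (ZMod ℓ)[X]).coeff (j : ℕ) := by
    funext j
    rw [Int.cast_natCast, ZMod.natCast_val, ZMod.cast_id]
  rw [e]
  exact (eq_P (by omega) hpm hd hnc).symm

end Pool.Agent.Helper313WR
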