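import Pool.Agent.Helper313SN.Iso

/-!
# Frobenius elements, acting on several polynomials at the same time
-/

set_option autoImplicit false
set_option linter.all false

open Polynomial NumberField
open scoped Classical

namespace Pool.Agent.Helper313WR

variable {k : Type} [Field k] [NumberField k]

/-- a Frobenius element -/
theorem frob0 (P : Ideal (𝓞 k)) [hPm : P.IsMaximal]
    (E : Type) [Field E] [NumberField E] [Algebra k E] [IsGalois k E] :
    ∃ (κ : Type) (_ : Field κ) (j : 𝓞 k ⧸ P →+* κ) (rr : 𝓞 E →+* κ) (σ : E ≃ₐ[k] E),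
      rr.comp (algebraMap (𝓞 k) (𝓞 E)) = j.comp (Ideal.Quotient.mk P) ∧
      ∀ x : 𝓞 E, rr (σ • x) = rr x ^ Nat.card (𝓞 k ⧸ P) := by
  classical
  obtain ⟨Q, hQp, hQ⟩ : ∃ Q : Ideal (𝓞 E), Q.IsPrime ∧ Q.under (𝓞 k) = P := by
    have hker : RingHom.ker (algebraMap (𝓞 k) (𝓞 E)) ≤ P := by
      rw [(RingHom.injective_iff_ker_eq_bot _).1 (FaithfulSMul.algebraMap_injective (𝓞 k) (𝓞 E))]
      exact bot_le
    obtain ⟨Q, h1, h2⟩ := Ideal.exists_ideal_over_prime_of_isIntegral_of_isDomain P
      (S := 𝓞 E) hker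
    exact ⟨Q, h1, h2⟩
  have hPb : P ≠ ⊥ := Ring.ne_bot_of_isMaximal_of_not_isField hPm (RingOfIntegers.not_isField k)
  have hQb : Q ≠ ⊥ := by
    rintro rfl
    apply hPb
    rw [← hQ, Ideal.under_def]
    exact (RingHom.injective_iff_ker_eq_bot _).1 (FaithfulSMul.algebraMap_injective (𝓞 k) (𝓞 E))
  haveI : Finite (𝓞 E ⧸ Q) := Ideal.finiteQuotientOfFreeOfNeBot _ hQb
  haveI hQm : Q.IsMaximal := hQp.isMaximal hQb
  letI : Field (𝓞 E ⧸ Q) := Ideal.Quotient.field Q
  letI : Field (𝓞 k ⧸ P) := Ideal.Quotient.field P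
  obtain ⟨σ, hσ⟩ := IsArithFrobAt.exists_of_isInvariant (𝓞 k) (Gal(E/k)) Q
  have hle : ∀ x ∈ P, (Ideal.Quotient.mk Q).comp (algebraMap (𝓞 k) (𝓞 E)) x = 0 := by
    intro x hx
    rw [← hQ] at hx
    exact Ideal.Quotient.eq_zero_iff_mem.2 hx
  let j : 𝓞 k ⧸ P →+* 𝓞 E ⧸ Q := Ideal.Quotient.lift P _ hle
  have hj : j.comp (Ideal.Quotient.mk P) = (Ideal.Quotient.mk Q).comp (algebraMap (𝓞 k) (𝓞 E)) :=
    Ideal.Quotient.lift_comp_mk P _ hle
  refine ⟨𝓞 E ⧸ Q, inferInstance, j, Ideal.Quotient.mk Q, σ, hj.symm, fun x => ?_⟩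
  have h1 := hσ x
  rw [hQ] at h1
  rw [← map_pow]
  exact Ideal.Quotient.eq.2 h1

/-- the action on the roots of one polynomial -/
theorem frob1 (P : Ideal (𝓞 k)) [hPm : P.IsMaximal] {f : (𝓞 k)[X]} (hf : f.Monic)
    (hsep : (f.map (Ideal.Quotient.mk P)).Separable)
    (E : Type) [Field E] [NumberField E] [Algebra k E]
    (hspl : ((f.map (algebraMap (𝓞 k) k)).map (algebraMap k E)).Splits)
    {κ : Type} [Field κ] (j : 𝓞 k ⧸ P →+* κ) (rr : 𝓞 E →+* κ) (σ : E ≃ₐ[k] E)
    (hj : rr.comp (algebraMap (𝓞 k) (𝓞 E)) = j.comp (Ideal.Quotient.mk P))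
    (hσ : ∀ x : 𝓞 E, rr (σ • x) = rr x ^ Nat.card (𝓞 k ⧸ P)) :
    ∃ (r : (f.map (algebraMap (𝓞 k) k)).rootSet E → κ),
      (∀ θ, r (MulAction.toPermHom (E ≃ₐ[k] E) ((f.map (algebraMap (𝓞 k) k)).rootSet E) σ θ) =
        r θ ^ Nat.card (𝓞 k ⧸ P)) ∧
      (f.map (Ideal.Quotient.mk P)).map j =
        C 1 * ∏ θ : (f.map (algebraMap (𝓞 k) k)).rootSet E, (X - C (r θ)) := by
  letI : Field (𝓞 k ⧸ P) := Ideal.Quotient.field P
  set F : k[X] := f.map (algebraMap (𝓞 k) k) with hF
  have hFm : F.Monic := hf.map _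
  have hint : ∀ θ : F.rootSet E, IsIntegral ℤ (θ : E) := by
    intro θ
    have h1 : IsIntegral (𝓞 k) (θ : E) := by
      refine ⟨f, hf, ?_⟩
      have h2 : ∀ x : E, aeval x F = 0 → eval₂ (algebraMap (𝓞 k) E) x f = 0 := by
        intro x hx
        rw [aeval_def, hF, eval₂_map, ← IsScalarTower.algebraMap_eq] at hx
        exact hx
      exact h2 _ (aeval_eq_zero_of_mem_rootSet θ.2)
    exact isIntegral_trans _ h1
  let t : F.rootSet E → 𝓞 E := fun θ => ⟨θ, hint θ⟩
  have hroots : ∀ x ∈ (F.map (algebraMap k E)).roots, x ∈ F.rootSet E := by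
    intro x hx
    rw [mem_rootSet]
    refine ⟨hFm.ne_zero, ?_⟩
    have := (mem_roots'.1 hx).2
    rwa [IsRoot.def, eval_map_algebraMap] at this
  have hfac : f.map (algebraMap (𝓞 k) (𝓞 E)) =
      ((F.map (algebraMap k E)).roots.attach.map
        (fun x => X - C (t ⟨x.1, hroots x.1 x.2⟩))).prod := by
    apply Polynomial.map_injective (algebraMap (𝓞 E) E) RingOfIntegers.coe_injective
    rw [Polynomial.map_map, ← IsScalarTower.algebraMap_eq, Polynomial.map_multiset_prod,
      Multiset.map_map]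
    have h1 : (Multiset.map ((Polynomial.map (algebraMap (𝓞 E) E)) ∘
        (fun x : {x // x ∈ (F.map (algebraMap k E)).roots} =>
          (X - C (t ⟨x.1, hroots x.1 x.2⟩)))) (F.map (algebraMap k E)).roots.attach) =
        (F.map (algebraMap k E)).roots.map (fun θ => X - C θ) := by
      conv_rhs => rw [← Multiset.attach_map_val (F.map (algebraMap k E)).roots]
      rw [Multiset.map_map]
      refine Multiset.map_congr rfl fun θ _ => ?_
      simp only [Function.comp, Polynomial.map_sub, map_X, map_C]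
      rfl
    rw [h1]
    have h2 := hspl.eq_prod_roots
    rw [(hFm.map _).leadingCoeff, C_1, one_mul] at h2
    rw [← h2, hF, Polynomial.map_map, ← IsScalarTower.algebraMap_eq]
  have hfac2 : (f.map (Ideal.Quotient.mk P)).map j =
      ((F.map (algebraMap k E)).roots.attach.map
        (fun x => X - C (rr (t ⟨x.1, hroots x.1 x.2⟩)))).prod := by
    rw [Polynomial.map_map, ← hj, ← Polynomial.map_map, hfac, Polynomial.map_multiset_prod,
      Multiset.map_map]
    congr 1
    refine Multiset.map_congr rfl fun θ _ => ?_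
    simp only [Function.comp, Polynomial.map_sub, map_X, map_C]
  have hsep2 : ((f.map (Ideal.Quotient.mk P)).map j).Separable := hsep.map
  have hnd : ((F.map (algebraMap k E)).roots.attach.map
        (fun x => rr (t ⟨x.1, hroots x.1 x.2⟩))).Nodup := by
    have h2 := nodup_roots hsep2
    have h3 : (F.map (algebraMap k E)).roots.attach.map
        (fun x => X - C (rr (t ⟨x.1, hroots x.1 x.2⟩))) =
        ((F.map (algebraMap k E)).roots.attach.map
        (fun x => rr (t ⟨x.1, hroots x.1 x.2⟩))).map (fun y => X - C y) := by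
      rw [Multiset.map_map]; rfl
    rw [hfac2, h3, roots_multiset_prod_X_sub_C] at h2
    exact h2
  have hndE : (F.map (algebraMap k E)).roots.Nodup := by
    have := Multiset.Nodup.of_map _ hnd
    rwa [Multiset.nodup_attach] at this
  let r : F.rootSet E → κ := fun θ => rr (t θ)
  refine ⟨r, ?_, ?_⟩
  · intro θ
    have h1 := hσ (t θ)
    have h2 : t (MulAction.toPermHom (E ≃ₐ[k] E) (F.rootSet E) σ θ) = σ • t θ := by
      apply RingOfIntegers.coe_injective
      rfl
    change rr _ = rr _ ^ _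
    rw [h2, h1]
  · rw [hfac2, C_1, one_mul]
    have e : (F.map (algebraMap k E)).roots.attach.map
        (fun x => X - C (rr (t ⟨x.1, hroots x.1 x.2⟩))) =
        (Finset.univ : Finset (F.rootSet E)).val.map (fun θ => X - C (r θ)) := by
      have h4 : (Finset.univ : Finset (F.rootSet E)).val =
          (F.map (algebraMap k E)).roots.attach.map
            (fun x => (⟨x.1, hroots x.1 x.2⟩ : F.rootSet E)) := by
        refine (Multiset.Nodup.ext Finset.univ.nodup ?_).2 ?_
        · refine Multiset.Nodup.map ?_ ((Multiset.nodup_attach).2 hndE)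
          intro x y h
          exact Subtype.ext (congrArg (fun z : F.rootSet E => (z : E)) h)
        · intro θ
          simp only [Finset.univ_eq_attach, Multiset.mem_map]
          constructor
          · intro _
            have h5 : (θ : E) ∈ (F.map (algebraMap k E)).roots := by
              rw [mem_roots ((Polynomial.map_ne_zero_iff (algebraMap k E).injective).2
                hFm.ne_zero), IsRoot.def, eval_map_algebraMap]
              exact aeval_eq_zero_of_mem_rootSet θ.2
            exact ⟨⟨θ, h5⟩, Multiset.mem_attach _ _, rfl⟩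
          · intro _
            exact Finset.mem_univ θ
      rw [h4, Multiset.map_map]
      rfl
    rw [e]
    rfl

end Pool.Agent.Helper313WR
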