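import Pool.Agent.Helper313WR.A1

/-!
# A completely split prime of a number field
-/

set_option autoImplicit false
set_option linter.all false

open Module Polynomial NumberField IntermediateField
open scoped Classical

namespace Pool.Agent.Helper313WR

open Pool.Agent.Helper313LB Pool.Agent.Helper313SN

variable (F : Type) [Field F] [NumberField F]

/-- an integral primitive element over `ℚ`, and large primes which split completely -/
theorem exists_data (N : ℕ) : ∃ (θ : 𝓞 F) (g : ℤ[X]) (ℓ : ℕ), ℓ.Prime ∧ N < ℓ ∧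
    ℚ⟮(θ : F)⟯ = ⊤ ∧ aeval θ g = 0 ∧ (g.map (Int.castRingHom (ZMod ℓ))).Splits ∧
    (g.map (Int.castRingHom (ZMod ℓ))).Separable := by
  obtain ⟨α, hα⟩ := Field.exists_primitive_element ℚ F
  obtain ⟨d, hd0, hd⟩ := exists_integral_multiples ℤ ℚ ({α} : Finset F)
  have hint : IsIntegral ℤ (d • α) := hd α (Finset.mem_singleton_self α)
  let θ : 𝓞 F := ⟨d • α, hint⟩
  have hθ : ℚ⟮(θ : F)⟯ = ⊤ := by
    rw [← top_le_iff, ← hα, adjoin_simple_le_iff]
    have h1 : (d • α : F) ∈ ℚ⟮(θ : F)⟯ := mem_adjoin_simple_self ℚ (θ : F)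
    have h2 : α = ((d : ℚ)⁻¹) • (d • α : F) := by
      have hdQ : (d : ℚ) ≠ 0 := by exact_mod_cast hd0
      have hdF : (d : F) ≠ 0 := by exact_mod_cast hd0
      rw [zsmul_eq_mul, Algebra.smul_def, map_inv₀, map_intCast]
      field_simp
    rw [h2]
    exact (ℚ⟮(θ : F)⟯).smul_mem h1
  have hθi : IsIntegral ℤ θ := θ.isIntegral
  let g : ℤ[X] := minpoly ℤ θ
  have hg : g.Monic := minpoly.monic hθi
  have hgQ : g.map (Int.castRingHom ℚ) = minpoly ℚ (θ : F) := by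
    have h1 := minpoly.isIntegrallyClosed_eq_field_fractions' ℚ (s := (θ : F)) hint
    rw [h1]
    congr 1
    exact (minpoly.algebraMap_eq (B := 𝓞 F) (B' := F) RingOfIntegers.coe_injective θ).symm
  have hirr : Irreducible (g.map (Int.castRingHom ℚ)) := by
    rw [hgQ]
    exact minpoly.irreducible (Algebra.IsIntegral.isIntegral _)
  obtain ⟨D, hD⟩ := sep_mod hirr
  obtain ⟨ℓ, hℓ, h3, h4⟩ := Pool.Agent.H884R2.Sko.exists_split g hg (max N D)
  exact ⟨θ, g, ℓ, hℓ, lt_of_le_of_lt (le_max_left _ _) h3, hθ, minpoly.aeval ℤ θ, h4,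
    hD ℓ hℓ (lt_of_le_of_lt (le_max_right _ _) h3)⟩

variable {F}

theorem map_int {ℓ : ℕ} {κ : Type} [Field κ] (i : ZMod ℓ →+* κ) (U : ℤ[X]) :
    (U.map (Int.castRingHom (ZMod ℓ))).map i = U.map (Int.castRingHom κ) := by
  rw [Polynomial.map_map]
  congr 1
  exact RingHom.ext_int _ _

theorem map_aeval {κ : Type} [Field κ] (ρ : 𝓞 F →+* κ) (θ : 𝓞 F) (U : ℤ[X]) :
    ρ (aeval θ U) = (U.map (Int.castRingHom κ)).eval (ρ θ) := by
  rw [aeval_def, hom_eval₂, eval_map]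
  congr 1
  exact RingHom.ext_int _ _

/-- the reductions of `θ` -/
theorem root_cases {ℓ : ℕ} [Fact ℓ.Prime] {g : ℤ[X]}
    (hspl : (g.map (Int.castRingHom (ZMod ℓ))).Splits)
    (hsep : (g.map (Int.castRingHom (ZMod ℓ))).Separable) {κ : Type} [Field κ]
    (i : ZMod ℓ →+* κ) {x : κ} (hx : (g.map (Int.castRingHom κ)).eval x = 0) :
    ∃ s : ZMod ℓ, x = i s ∧ (g.map (Int.castRingHom (ZMod ℓ))).eval s = 0 := by
  set G := g.map (Int.castRingHom (ZMod ℓ)) with hG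
  have hG0 : G ≠ 0 := hsep.ne_zero
  have h1 := hspl.eq_prod_roots
  have h2 : (G.map i).eval x = 0 := by rw [hG, map_int]; exact hx
  rw [h1, Polynomial.map_mul, eval_mul, Polynomial.map_multiset_prod, Multiset.map_map,
    eval_multiset_prod, Multiset.map_map, map_C, eval_C] at h2
  have h3 : i G.leadingCoeff ≠ 0 := (map_ne_zero i).2 (leadingCoeff_ne_zero.2 hG0)
  have h4 := (mul_eq_zero.1 h2).resolve_left h3
  rw [Multiset.prod_eq_zero_iff, Multiset.mem_map] at h4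
  obtain ⟨s, hs, hs2⟩ := h4
  refine ⟨s, ?_, (mem_roots'.1 hs).2⟩
  simp only [Function.comp, Polynomial.map_sub, map_X, map_C, eval_sub, eval_X, eval_C] at hs2
  exact sub_eq_zero.1 hs2

/-- an idempotent modulo `ℓ` -/
theorem exists_idem {ℓ : ℕ} [Fact ℓ.Prime] {g : ℤ[X]}
    (hspl : (g.map (Int.castRingHom (ZMod ℓ))).Splits)
    (hsep : (g.map (Int.castRingHom (ZMod ℓ))).Separable)
    (θ : 𝓞 F) (hθ : aeval θ g = 0) (t : ZMod ℓ)
    (ht : (g.map (Int.castRingHom (ZMod ℓ))).eval t = 0) :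
    ∃ e : 𝓞 F, ∀ (κ : Type) [Field κ] (i : ZMod ℓ →+* κ) (ρ : 𝓞 F →+* κ),
      (ρ θ = i t → ρ e = 1) ∧ (ρ θ ≠ i t → ρ e = 0) := by
  set G := g.map (Int.castRingHom (ZMod ℓ)) with hG
  obtain ⟨u, hu⟩ := dvd_iff_isRoot.2 (show G.IsRoot t from ht)
  have hut : u.eval t ≠ 0 := by
    intro h
    obtain ⟨a, b, hab⟩ := hsep
    have h5 := congrArg (Polynomial.eval t) hab
    rw [hu] at h5
    simp [h] at h5
  obtain ⟨U, hU⟩ := Polynomial.map_surjective (Int.castRingHom (ZMod ℓ))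
    (ZMod.intCast_surjective) (C (u.eval t)⁻¹ * u)
  refine ⟨aeval θ U, fun κ _ i ρ => ?_⟩
  have h1 : ρ (aeval θ U) = i (u.eval t)⁻¹ * (u.map i).eval (ρ θ) := by
    rw [map_aeval, ← map_int i, hU, Polynomial.map_mul, map_C, eval_mul, eval_C]
  have h2 : (ρ θ - i t) * (u.map i).eval (ρ θ) = 0 := by
    have h3 : (g.map (Int.castRingHom κ)).eval (ρ θ) = 0 := by
      rw [← map_aeval, hθ, map_zero]
    rw [← map_int i, ← hG, hu, Polynomial.map_mul, Polynomial.map_sub, map_X, map_C, eval_mul,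
      eval_sub, eval_X, eval_C] at h3
    exact h3
  constructor
  · intro h
    rw [h1, h, eval_map_apply, ← map_mul, inv_mul_cancel₀ hut, map_one]
  · intro h
    rw [h1, (mul_eq_zero.1 h2).resolve_left (sub_ne_zero.2 h), mul_zero]

/-- the map of `ZMod ℓ` to a residue field -/
theorem exists_zmod {ℓ : ℕ} [hp : Fact ℓ.Prime] (P : Ideal (𝓞 F)) [P.IsMaximal]
    (h : (ℓ : 𝓞 F) ∈ P) : Nonempty (ZMod ℓ →+* 𝓞 F ⧸ P) := by
  have h0 : ((ℓ : ℕ) : 𝓞 F ⧸ P) = 0 := by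
    have := Ideal.Quotient.eq_zero_iff_mem.2 h
    rwa [map_natCast] at this
  haveI : Nontrivial (𝓞 F ⧸ P) := Ideal.Quotient.nontrivial_iff.2 (Ideal.IsMaximal.ne_top ‹_›)
  haveI : CharP (𝓞 F ⧸ P) ℓ := (CharP.charP_iff_prime_eq_zero hp.out).2 h0
  exact ⟨ZMod.castHom dvd_rfl _⟩

end Pool.Agent.Helper313WR
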