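import Pool.Agent.Helper313WR.A2
import Pool.Agent.Helper313WR.A3

/-!
# A transposition in the Galois group over a subfield
-/

set_option autoImplicit false
set_option linter.all false

open Module Polynomial NumberField IntermediateField
open scoped Classical

namespace Pool.Agent.Helper313WR

open Pool.Agent.Helper313LB Pool.Agent.Helper313SN Pool.Agent.X243.Sol

section

variable (K : Type) {F Ω : Type} [Field K] [NumberField K] [Field F] [NumberField F] [Field Ω]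
  [CharZero Ω] [Algebra K F] [Algebra K Ω] [Algebra F Ω] [IsScalarTower K F Ω]

/-- Some automorphism over `K` acts on the embeddings over `K` as the transposition of two
embeddings over `F`. -/
def Tr (L : IntermediateField F Ω) : Prop :=
  ∃ (τ : Ω ≃ₐ[K] Ω) (φ₁ φ₂ : L →ₐ[F] Ω), φ₁ ≠ φ₂ ∧
    ∀ φ : L →ₐ[K] Ω, τ.toAlgHom.comp φ =
      Equiv.swap (φ₁.restrictScalars K) (φ₂.restrictScalars K) φ

theorem ext_F {θ : 𝓞 F} (hθ : ℚ⟮(θ : F)⟯ = ⊤) {B : Type} [Field B] [CharZero B] (f f' : F →+* B)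
    (h : f θ = f' θ) : f = f' := by
  let S1 : Subfield F := RingHom.eqLocusField f f'
  let S2 : IntermediateField ℚ F := S1.toIntermediateField (fun y => by
    change f (algebraMap ℚ F y) = f' (algebraMap ℚ F y)
    simp)
  have h1 : (⊤ : IntermediateField ℚ F) ≤ S2 := by
    rw [← hθ, adjoin_simple_le_iff]
    exact h
  ext x
  exact h1 (mem_top (x := x))

theorem hom_ext {θ : 𝓞 F} (hθ : ℚ⟮(θ : F)⟯ = ⊤) {α : Ω} (φ φ' : F⟮α⟯ →ₐ[K] Ω)
    (h1 : φ (algebraMap F F⟮α⟯ θ) = φ' (algebraMap F F⟮α⟯ θ))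
    (h2 : φ (AdjoinSimple.gen F α) = φ' (AdjoinSimple.gen F α)) : φ = φ' := by
  have hF := ext_F hθ ((φ : F⟮α⟯ →+* Ω).comp (algebraMap F F⟮α⟯))
    ((φ' : F⟮α⟯ →+* Ω).comp (algebraMap F F⟮α⟯)) h1
  let S1 : Subfield F⟮α⟯ := RingHom.eqLocusField (φ : F⟮α⟯ →+* Ω) (φ' : F⟮α⟯ →+* Ω)
  let S2 : IntermediateField F F⟮α⟯ := S1.toIntermediateField (fun y => RingHom.congr_fun hF y)
  have htop : F⟮AdjoinSimple.gen F α⟯ = (⊤ : IntermediateField F F⟮α⟯) := by
    apply lift_injective F⟮α⟯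
    rw [lift_adjoin_simple, lift_top, AdjoinSimple.coe_gen]
  have h3 : (⊤ : IntermediateField F F⟮α⟯) ≤ S2 := by
    rw [← htop, adjoin_simple_le_iff]
    exact h2
  ext x
  exact h3 (mem_top (x := x))

variable [IsAlgClosed Ω] [Normal F Ω]

theorem tr_of {n : ℕ} (hn : 3 ≤ n) (P3 : Ideal (𝓞 F)) [hP3 : P3.IsMaximal] {ℓ : ℕ} [Fact ℓ.Prime]
    {θ : 𝓞 F} {g : ℤ[X]} (hθ : ℚ⟮(θ : F)⟯ = ⊤) (hgθ : aeval θ g = 0)
    (hspl : (g.map (Int.castRingHom (ZMod ℓ))).Splits)
    (hsep : (g.map (Int.castRingHom (ZMod ℓ))).Separable)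
    (i3 : ZMod ℓ →+* 𝓞 F ⧸ P3) (t : ZMod ℓ) (ht : Ideal.Quotient.mk P3 θ = i3 t)
    {A : Fin (n - 1) → 𝓞 F} (hirr : Irreducible ((P n A).map (algebraMap (𝓞 F) F)))
    {S3 : Finset (𝓞 F ⧸ P3)} {π3 : (𝓞 F ⧸ P3)[X]} (h3i : Irreducible π3)
    (h3d : π3.natDegree = 2)
    (h3 : (P n A).map (Ideal.Quotient.mk P3) = π3 * ∏ c ∈ S3, (X - C c))
    {b0 : Fin (n - 1) → ℤ} {S0 : Finset (ZMod ℓ)}
    (h0 : P n (fun j => (b0 j : ZMod ℓ)) = ∏ c ∈ S0, (X - C c))
    (hA : ∀ (κ : Type) [Field κ] (i : ZMod ℓ →+* κ) (ρ : 𝓞 F →+* κ), ρ θ ≠ i t →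
      ∀ j, ρ (A j) = i (b0 j : ZMod ℓ))
    {α : Ω} (hα : minpoly F α = (P n A).map (algebraMap (𝓞 F) F)) : Tr K F⟮α⟯ := by
  letI : Field (𝓞 F ⧸ P3) := Ideal.Quotient.field P3
  have hb3 : P3 ≠ ⊥ := Ring.ne_bot_of_isMaximal_of_not_isField hP3 (RingOfIntegers.not_isField F)
  haveI : Finite (𝓞 F ⧸ P3) := Ideal.finiteQuotientOfFreeOfNeBot _ hb3
  haveI := Fintype.ofFinite (𝓞 F ⧸ P3)
  set p : F[X] := (P n A).map (algebraMap (𝓞 F) F) with hp
  have hmon : (P n A).Monic := P_monic _ (by omega)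
  have hpm : p.Monic := hmon.map _
  have hintΩ : ∀ x : Ω, IsIntegral F x := fun x => Normal.isIntegral inferInstance x
  have hint : IsIntegral F α := hintΩ α
  haveI : FiniteDimensional F F⟮α⟯ := adjoin.finiteDimensional hint
  haveI : IsScalarTower ℚ K F := IsScalarTower.of_algebraMap_eq' (Subsingleton.elim _ _)
  haveI : FiniteDimensional K F := FiniteDimensional.right ℚ K F
  haveI : FiniteDimensional K F⟮α⟯ := FiniteDimensional.trans K F F⟮α⟯
  haveI : Fintype (F⟮α⟯ →ₐ[K] Ω) := Fintype.ofFinite _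
  let pT : F[X] := ∏ φ : F⟮α⟯ →ₐ[K] Ω,
    (minpoly F (φ (algebraMap F F⟮α⟯ θ)) * minpoly F (φ (AdjoinSimple.gen F α)))
  have hpT0 : pT ≠ 0 := Finset.prod_ne_zero_iff.2 fun φ _ =>
    mul_ne_zero (minpoly.ne_zero (hintΩ _)) (minpoly.ne_zero (hintΩ _))
  let E : IntermediateField F Ω := IntermediateField.adjoin F (pT.rootSet Ω)
  have hE : pT.IsSplittingField F E :=
    IntermediateField.adjoin_rootSet_isSplittingField (IsAlgClosed.splits _)
  have hfdE : FiniteDimensional F E := IsSplittingField.finiteDimensional E pT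
  have hnfE : NumberField E := nf_of_fd E
  have hnorm : Normal F E := Normal.of_isSplittingField pT
  have hgal : IsGalois F E := ⟨⟩
  have hmemθ : ∀ φ : F⟮α⟯ →ₐ[K] Ω, φ (algebraMap F F⟮α⟯ θ) ∈ E := by
    intro φ
    apply IntermediateField.subset_adjoin
    rw [mem_rootSet]
    refine ⟨hpT0, ?_⟩
    rw [← minpoly.dvd_iff]
    exact (Dvd.intro _ rfl).trans (Finset.dvd_prod_of_mem _ (Finset.mem_univ φ))
  have hmemα : ∀ φ : F⟮α⟯ →ₐ[K] Ω, φ (AdjoinSimple.gen F α) ∈ E := by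
    intro φ
    apply IntermediateField.subset_adjoin
    rw [mem_rootSet]
    refine ⟨hpT0, ?_⟩
    rw [← minpoly.dvd_iff]
    exact (Dvd.intro_left _ rfl).trans (Finset.dvd_prod_of_mem _ (Finset.mem_univ φ))
  obtain ⟨κ, _, j, rr, σ, hj, hσ⟩ := frob0 P3 E
  set N := Nat.card (𝓞 F ⧸ P3) with hNdef
  let i : ZMod ℓ →+* κ := j.comp i3
  have hN : ∀ s : ZMod ℓ, i s ^ N = i s := by
    intro s
    change j (i3 s) ^ N = j (i3 s)
    rw [← map_pow]
    congr 1
    have h4 := FiniteField.pow_card (i3 s)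
    rw [← Nat.card_eq_fintype_card] at h4
    exact h4
  have hψ : ∀ (φ : F⟮α⟯ →ₐ[K] Ω) (x : F), φ (algebraMap F F⟮α⟯ x) ∈ E := by
    intro φ x
    let f : F →+* Ω := (φ : F⟮α⟯ →+* Ω).comp (algebraMap F F⟮α⟯)
    let S1 : Subfield F := E.toSubfield.comap f
    let S2 : IntermediateField ℚ F := S1.toIntermediateField (fun y => by
      change f (algebraMap ℚ F y) ∈ E
      rw [eq_ratCast, map_ratCast]
      exact SubfieldClass.ratCast_mem E y)
    have h1 : (⊤ : IntermediateField ℚ F) ≤ S2 := by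
      rw [← hθ, adjoin_simple_le_iff]
      exact hmemθ φ
    exact h1 (mem_top (x := x))
  let ψE : (F⟮α⟯ →ₐ[K] Ω) → F →+* E := fun φ =>
    ((φ : F⟮α⟯ →+* Ω).comp (algebraMap F F⟮α⟯)).codRestrict E (hψ φ)
  let ψO : (F⟮α⟯ →ₐ[K] Ω) → 𝓞 F →+* 𝓞 E := fun φ => RingOfIntegers.mapRingHom (ψE φ)
  have hg_root : ∀ {B : Type} [CommRing B] (ρ : 𝓞 F →+* B),
      (g.map (Int.castRingHom B)).eval (ρ θ) = 0 := by
    intro B _ ρ
    have h4 := congrArg ρ hgθ
    rw [aeval_def, hom_eval₂, map_zero] at h4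
    rw [eval_map, ← h4]
    congr 1
    exact RingHom.ext_int _ _
  let sO : 𝓞 E →+* 𝓞 E := MulSemiringAction.toRingHom (E ≃ₐ[F] E) (𝓞 E) σ
  have hsO : ∀ x : 𝓞 E, sO x = σ • x := fun _ => rfl
  have hrrg : ((g.map (Int.castRingHom (𝓞 E))).map rr).Separable := by
    have e : rr.comp (Int.castRingHom (𝓞 E)) = i.comp (Int.castRingHom (ZMod ℓ)) :=
      RingHom.ext_int _ _
    rw [Polynomial.map_map, e, ← Polynomial.map_map]
    exact hsep.map
  have hfix : ∀ φ, sO (ψO φ θ) = ψO φ θ := by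
    intro φ
    refine root_unique rr hrrg (hg_root (sO.comp (ψO φ))) (hg_root (ψO φ)) ?_
    obtain ⟨s, hs, -⟩ := root_cases hspl hsep i (x := rr (ψO φ θ)) (hg_root (rr.comp (ψO φ)))
    change rr (sO (ψO φ θ)) = rr (ψO φ θ)
    rw [hsO, hσ, hs, hN]
  have hfixE : ∀ φ, (σ : E →+* E).comp (ψE φ) = ψE φ := by
    intro φ
    apply ext_F hθ
    have h4 := congrArg (algebraMap (𝓞 E) E) (hfix φ)
    exact h4
  have hfixO : ∀ φ, sO.comp (ψO φ) = ψO φ := by
    intro φ
    ext x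
    have h4 := RingHom.congr_fun (hfixE φ) (x : F)
    exact congrArg (algebraMap E Ω) h4
  -- the embeddings which do not fix `F`
  have hother : ∀ φ : F⟮α⟯ →ₐ[K] Ω, φ (algebraMap F F⟮α⟯ θ) ≠ algebraMap F Ω θ →
      σ ⟨φ (AdjoinSimple.gen F α), hmemα φ⟩ = ⟨φ (AdjoinSimple.gen F α), hmemα φ⟩ := by
    intro φ hφ
    have hne : rr (ψO φ θ) ≠ i t := by
      intro h
      apply hφ
      have h5 : rr (ψO φ θ) = rr (algebraMap (𝓞 F) (𝓞 E) θ) := by
        have h6 := RingHom.congr_fun hj θ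
        change rr (algebraMap (𝓞 F) (𝓞 E) θ) = j (Ideal.Quotient.mk P3 θ) at h6
        rw [h6, ht, h]
        rfl
      have h7 := root_unique rr hrrg (hg_root (ψO φ)) (hg_root (algebraMap (𝓞 F) (𝓞 E))) h5
      exact congrArg (fun x : 𝓞 E => ((x : E) : Ω)) h7
    have hA' := hA κ i (rr.comp (ψO φ)) hne
    set f : (𝓞 E)[X] := (P n A).map (ψO φ) with hf
    have hfm : f.Monic := hmon.map _
    set x : E := ⟨φ (AdjoinSimple.gen F α), hmemα φ⟩ with hx
    have hev : eval₂ (algebraMap (𝓞 E) E) x f = 0 := by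
      apply (algebraMap E Ω).injective
      rw [map_zero, hf, eval₂_map, hom_eval₂]
      have e1 : (algebraMap E Ω).comp ((algebraMap (𝓞 E) E).comp (ψO φ)) =
          (φ : F⟮α⟯ →+* Ω).comp ((algebraMap F F⟮α⟯).comp (algebraMap (𝓞 F) F)) := rfl
      have e2 : algebraMap E Ω x = (φ : F⟮α⟯ →+* Ω) (AdjoinSimple.gen F α) := rfl
      rw [e1, e2, ← hom_eval₂, ← eval₂_map, ← hp, ← hα]
      have h8 := minpoly.aeval F (AdjoinSimple.gen F α)
      rw [minpoly_gen, aeval_def] at h8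
      rw [h8, map_zero]
    have hxi : IsIntegral ℤ x := isIntegral_trans (A := 𝓞 E) _ ⟨f, hfm, hev⟩
    let X' : 𝓞 E := ⟨x, hxi⟩
    have hX' : f.eval X' = 0 := by
      apply RingOfIntegers.coe_injective
      rw [map_zero, ← eval₂_at_apply]
      exact hev
    have hsX' : f.eval (sO X') = 0 := by
      have h8 := congrArg sO hX'
      rw [map_zero, ← eval₂_at_apply, ← eval_map, hf, Polynomial.map_map, hfixO] at h8
      exact h8
    have hrrf : f.map rr = (∏ c ∈ S0, (X - C c)).map i := by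
      rw [← h0, hf, Polynomial.map_map, P_map, P_map]
      congr 1
      funext k
      exact hA' k
    have hsepf : (f.map rr).Separable := by
      rw [hrrf]
      apply Separable.map
      apply separable_prod_X_sub_C_iff'.2
      exact fun x _ y _ h => h
    have h9 : sO X' = X' := by
      refine root_unique rr hsepf hsX' hX' ?_
      rw [hsO, hσ]
      have h10 : (f.map rr).eval (rr X') = 0 := by
        rw [eval_map_apply, hX', map_zero]
      rw [hrrf, Polynomial.map_prod, eval_prod, Finset.prod_eq_zero_iff] at h10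
      obtain ⟨c, -, hc⟩ := h10
      simp only [Polynomial.map_sub, map_X, map_C, eval_sub, eval_X, eval_C] at hc
      rw [sub_eq_zero.1 hc, hN]
    exact congrArg (algebraMap (𝓞 E) E) h9
  -- the embeddings over `F`
  have hfac3 : (P n A).map (Ideal.Quotient.mk P3) = C 1 * π3 * ∏ c ∈ S3, (X - C c) := by
    rw [h3, C_1, one_mul]
  have hsep3 : ((P n A).map (Ideal.Quotient.mk P3)).Separable := by
    rw [hfac3]
    exact sep_lin h3i h3d.ge one_ne_zero S3
  have hmem : ∀ y ∈ p.rootSet Ω, y ∈ E := by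
    intro y hy
    apply IntermediateField.subset_adjoin
    rw [mem_rootSet] at hy ⊢
    refine ⟨hpT0, ?_⟩
    have hd : p ∣ pT := by
      refine dvd_trans ?_ (Finset.dvd_prod_of_mem _
        (Finset.mem_univ ((F⟮α⟯.val).restrictScalars K)))
      have e : ((F⟮α⟯.val).restrictScalars K) (AdjoinSimple.gen F α) = α := rfl
      rw [e, hα]
      exact Dvd.intro_left _ rfl
    obtain ⟨q, hq⟩ := hd
    rw [hq, map_mul, hy.2, zero_mul]
  have hsplE : (p.map (algebraMap F E)).Splits := by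
    have h4 : (p.map (algebraMap F Ω)).Splits := IsAlgClosed.splits _
    have h5 : (pT.map (algebraMap F E)).Splits := IsSplittingField.splits E pT
    have hd : p ∣ pT := by
      refine dvd_trans ?_ (Finset.dvd_prod_of_mem _
        (Finset.mem_univ ((F⟮α⟯.val).restrictScalars K)))
      have e : ((F⟮α⟯.val).restrictScalars K) (AdjoinSimple.gen F α) = α := rfl
      rw [e, hα]
      exact Dvd.intro_left _ rfl
    exact h5.of_dvd ((Polynomial.map_ne_zero_iff (algebraMap F E).injective).2 hpT0)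
      (Polynomial.map_dvd _ hd)
  obtain ⟨r, hr1, hr2⟩ := frob1 P3 hmon hsep3 E hsplE j rr σ hj hσ
  have hsw := type_swap j hsep3 hr2 hr1 h3i h3d hfac3
  obtain ⟨θ1, θ2, hne12, hsweq⟩ := hsw
  have hrootΩ : ∀ y : p.rootSet E, algebraMap E Ω (y : E) ∈ (minpoly F α).aroots Ω := by
    intro y
    rw [mem_aroots]
    refine ⟨minpoly.ne_zero hint, ?_⟩
    rw [aeval_algebraMap_apply, hα, aeval_eq_zero_of_mem_rootSet y.2, map_zero]
  let Φ : p.rootSet E → (F⟮α⟯ →ₐ[F] Ω) := fun y =>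
    (algHomAdjoinIntegralEquiv F hint).symm ⟨_, hrootΩ y⟩
  have hΦ : ∀ y, Φ y (AdjoinSimple.gen F α) = algebraMap E Ω (y : E) := fun y =>
    algHomAdjoinIntegralEquiv_symm_apply_gen F hint _
  have hΦinj : Function.Injective (fun y => (Φ y).restrictScalars K) := by
    intro y y' h
    apply Subtype.ext
    apply (algebraMap E Ω).injective
    rw [← hΦ, ← hΦ]
    exact congrArg (fun φ : F⟮α⟯ →ₐ[K] Ω => φ (AdjoinSimple.gen F α)) h
  set τ : Ω ≃ₐ[K] Ω := (σ.liftNormal Ω).restrictScalars K with hτ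
  have hτE : ∀ x : E, τ (algebraMap E Ω x) = algebraMap E Ω (σ x) := fun x =>
    σ.liftNormal_commutes Ω x
  have hkey : ∀ y : p.rootSet E, τ.toAlgHom.comp ((Φ y).restrictScalars K) =
      (Φ (MulAction.toPermHom (E ≃ₐ[F] E) (p.rootSet E) σ y)).restrictScalars K := by
    intro y
    apply hom_ext K hθ
    · change τ (Φ y (algebraMap F F⟮α⟯ θ)) = (Φ _) (algebraMap F F⟮α⟯ θ)
      rw [(Φ y).commutes, (Φ _).commutes]
      exact (σ.liftNormal Ω).commutes _
    · change τ (Φ y (AdjoinSimple.gen F α)) = (Φ _) (AdjoinSimple.gen F α)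
      rw [hΦ, hΦ, hτE]
      rfl
  refine ⟨τ, Φ θ1, Φ θ2, ?_, ?_⟩
  · intro h
    apply hne12
    apply hΦinj
    change (Φ θ1).restrictScalars K = (Φ θ2).restrictScalars K
    rw [h]
  · intro φ
    by_cases hφ : φ (algebraMap F F⟮α⟯ θ) = algebraMap F Ω θ
    · have hF := ext_F hθ ((φ : F⟮α⟯ →+* Ω).comp (algebraMap F F⟮α⟯)) (algebraMap F Ω) hφ
      let φ' : F⟮α⟯ →ₐ[F] Ω := { (φ : F⟮α⟯ →+* Ω) with commutes' := fun x => RingHom.congr_fun hF x }
      have hroot : φ (AdjoinSimple.gen F α) ∈ p.rootSet Ω := by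
        rw [mem_rootSet]
        refine ⟨hpm.ne_zero, ?_⟩
        change aeval (φ' (AdjoinSimple.gen F α)) p = 0
        rw [aeval_algHom_apply, ← hα]
        have := minpoly.aeval F (AdjoinSimple.gen F α)
        rw [minpoly_gen] at this
        rw [this, map_zero]
      let y : p.rootSet E := ⟨⟨φ (AdjoinSimple.gen F α), hmem _ hroot⟩, by
        rw [mem_rootSet]
        refine ⟨hpm.ne_zero, ?_⟩
        apply (algebraMap E Ω).injective
        rw [map_zero, ← aeval_algebraMap_apply]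
        exact aeval_eq_zero_of_mem_rootSet hroot⟩
      have hφy : φ = (Φ y).restrictScalars K := by
        apply hom_ext K hθ
        · change φ (algebraMap F F⟮α⟯ θ) = (Φ y) (algebraMap F F⟮α⟯ θ)
          rw [(Φ y).commutes, hφ]
        · change φ (AdjoinSimple.gen F α) = (Φ y) (AdjoinSimple.gen F α)
          rw [hΦ]
          rfl
      rw [hφy, hkey, hsweq]
      exact hΦinj.map_swap θ1 θ2 y
    · have hn1 : ∀ y, φ ≠ (Φ y).restrictScalars K := by
        rintro y rfl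
        apply hφ
        exact (Φ y).commutes _
      rw [Equiv.swap_apply_of_ne_of_ne (hn1 θ1) (hn1 θ2)]
      apply hom_ext K hθ
      · have h4 := RingHom.congr_fun (hfixE φ) (θ : F)
        have h5 := hτE (ψE φ θ)
        change σ (ψE φ θ) = ψE φ θ at h4
        rw [h4] at h5
        exact h5
      · have h5 := hτE ⟨φ (AdjoinSimple.gen F α), hmemα φ⟩
        rw [hother φ hφ] at h5
        exact h5

end

end Pool.Agent.Helper313WR
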