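import Pool.Agent.Helper313WR.A4

/-!
# A congruence class of polynomials with the full wreath product as Galois group
-/

set_option autoImplicit false
set_option linter.all false

open Module Polynomial NumberField IntermediateField
open scoped Classical

namespace Pool.Agent.Helper313WR

open Pool.Agent.Helper313LB Pool.Agent.Helper313SN

section

variable {F : Type} [Field F] [NumberField F]

theorem coprime_span {ℓ m : ℕ} (h : Nat.Coprime m ℓ) {P : Ideal (𝓞 F)} (hm : (m : 𝓞 F) ∈ P) :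
    IsCoprime P (Ideal.span {(ℓ : 𝓞 F)}) := by
  have h1 : IsCoprime (m : ℤ) (ℓ : ℤ) := Nat.isCoprime_iff_coprime.2 h
  obtain ⟨a, b, hab⟩ := h1
  rw [Ideal.isCoprime_iff_exists]
  refine ⟨(a : 𝓞 F) * (m : 𝓞 F), P.mul_mem_left _ hm, (b : 𝓞 F) * (ℓ : 𝓞 F),
    Ideal.mul_mem_left _ _ (Ideal.mem_span_singleton_self _), ?_⟩
  have := congrArg (fun z : ℤ => (z : 𝓞 F)) hab
  push_cast at this
  exact this

end

variable (K F Ω : Type) [Field K] [NumberField K] [Field F] [NumberField F] [Field Ω]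
  [CharZero Ω] [Algebra K F] [Algebra K Ω] [Algebra F Ω] [IsScalarTower K F Ω]
  [IsAlgClosed Ω] [Normal F Ω]

theorem exists_baseW {n : ℕ} (hn : 3 ≤ n) : ∃ (a : Fin (n - 1) → 𝓞 F) (q : ℕ), 1 ≤ q ∧
    ∀ b : Fin (n - 1) → 𝓞 F, Irreducible (P n fun j => ((a j + q * b j : 𝓞 F) : F)) ∧
      ∀ α : Ω, minpoly F α = P n (fun j => ((a j + q * b j : 𝓞 F) : F)) →
        Full F⟮α⟯ ∧ Tr K F⟮α⟯ := by
  obtain ⟨θ, g, ℓ, hℓ, hℓN, hθ, hgθ, hspl, hsep⟩ := exists_data F (n + 4)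
  haveI : Fact ℓ.Prime := ⟨hℓ⟩
  obtain ⟨P1, h1, h1'⟩ := exists_above F Nat.prime_two
  obtain ⟨P2, h2, h2'⟩ := exists_above F Nat.prime_three
  obtain ⟨P3, h3, h3'⟩ := exists_above F hℓ
  have c23 : Nat.Coprime 3 2 := by norm_num
  have c2 : Nat.Coprime 2 ℓ := (Nat.coprime_primes Nat.prime_two hℓ).2 (by omega)
  have c3 : Nat.Coprime 3 ℓ := (Nat.coprime_primes Nat.prime_three hℓ).2 (by omega)
  have h12 : P1 ≠ P2 := by
    rintro rfl
    exact natCast_not_mem F h2.ne_top c23 h2' h1'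
  have hb1 : P1 ≠ ⊥ := Ring.ne_bot_of_isMaximal_of_not_isField h1 (RingOfIntegers.not_isField F)
  have hb2 : P2 ≠ ⊥ := Ring.ne_bot_of_isMaximal_of_not_isField h2 (RingOfIntegers.not_isField F)
  have hb3 : P3 ≠ ⊥ := Ring.ne_bot_of_isMaximal_of_not_isField h3 (RingOfIntegers.not_isField F)
  haveI : Finite (𝓞 F ⧸ P2) := Ideal.finiteQuotientOfFreeOfNeBot _ hb2
  haveI : Finite (𝓞 F ⧸ P3) := Ideal.finiteQuotientOfFreeOfNeBot _ hb3
  letI : Field (𝓞 F ⧸ P2) := Ideal.Quotient.field P2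
  letI : Field (𝓞 F ⧸ P3) := Ideal.Quotient.field P3
  obtain ⟨i3⟩ := exists_zmod P3 h3'
  have htwo : (2 : 𝓞 F ⧸ P3) ≠ 0 := by
    have h4 : ((2 : ℕ) : ZMod ℓ) ≠ 0 := by
      rw [Ne, ZMod.natCast_eq_zero_iff]
      intro h
      have := Nat.le_of_dvd (by norm_num) h
      omega
    have h5 : i3 ((2 : ℕ) : ZMod ℓ) ≠ 0 := (map_ne_zero i3).2 h4
    rw [map_natCast] at h5
    exact_mod_cast h5
  have hcard : n ≤ Nat.card (𝓞 F ⧸ P3) := by
    have h4 := Nat.card_le_card_of_injective i3 i3.injective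
    rw [Nat.card_zmod] at h4
    omega
  obtain ⟨t, ht, htroot⟩ := root_cases hspl hsep i3 (x := Ideal.Quotient.mk P3 θ) (by
    rw [← map_aeval, hgθ, map_zero])
  obtain ⟨e, he⟩ := exists_idem hspl hsep θ hgθ t htroot
  obtain ⟨π, hπ, hπ2⟩ := Ideal.exists_mem_pow_notMem_pow_succ P1 hb1 h1.ne_top 1
  rw [pow_one] at hπ
  obtain ⟨a2, c2', π2, i2, d2, e2⟩ := exists_red2 (𝓞 F ⧸ P2) hn
  obtain ⟨a3, S3, π3, i3', d3, e3⟩ := exists_red3 (𝓞 F ⧸ P3) hn htwo hcard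
  obtain ⟨b0, S0, e0⟩ := exists_red0 (n := n) (ℓ := ℓ) hn (by omega)
  have hx3 : ∀ j : Fin (n - 1), ∃ x : 𝓞 F, Ideal.Quotient.mk P3 x = a3 j := fun j =>
    Ideal.Quotient.mk_surjective (a3 j)
  choose x3 hx3 using hx3
  let c : Fin (n - 1) → 𝓞 F := fun j => (b0 j : 𝓞 F) + e * (x3 j - (b0 j : 𝓞 F))
  have hex : ∀ j : Fin (n - 1), ∃ y : 𝓞 F, y - (if (j : ℕ) = 0 then π else 0) ∈ P1 ^ 2 ∧
      Ideal.Quotient.mk P2 y = a2 j ∧ y - c j ∈ Ideal.span {(ℓ : 𝓞 F)} := by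
    intro j
    obtain ⟨x2, hx2⟩ := Ideal.Quotient.mk_surjective (a2 j)
    have c12 : IsCoprime (P1 ^ 2) P2 := IsCoprime.pow_left (Ideal.isCoprime_of_isMaximal h12)
    have c13 : IsCoprime (P1 ^ 2) (Ideal.span {(ℓ : 𝓞 F)}) :=
      IsCoprime.pow_left (coprime_span c2 h1')
    have c23 : IsCoprime P2 (Ideal.span {(ℓ : 𝓞 F)}) := coprime_span c3 h2'
    let I : Fin 3 → Ideal (𝓞 F) := ![P1 ^ 2, P2, Ideal.span {(ℓ : 𝓞 F)}]
    have hI : Pairwise (Function.onFun IsCoprime I) := by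
      intro i j hij
      fin_cases i <;> fin_cases j <;>
        first
          | exact absurd rfl hij
          | exact c12
          | exact c13
          | exact c23
          | exact c12.symm
          | exact c13.symm
          | exact c23.symm
    obtain ⟨y, hy⟩ := Ideal.exists_forall_sub_mem_ideal hI
      ![(if (j : ℕ) = 0 then π else 0), x2, c j]
    exact ⟨y, hy 0, by rw [← hx2]; exact Ideal.Quotient.eq.2 (hy 1), hy 2⟩
  choose a ha1 ha2 ha3 using hex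
  refine ⟨a, 2 ^ 2 * 3 * ℓ, by have := hℓ.pos; omega, fun b => ?_⟩
  set q : ℕ := 2 ^ 2 * 3 * ℓ with hq
  have hq1 : (q : 𝓞 F) ∈ P1 ^ 2 := by
    have e : ((2 ^ 2 * 3 * ℓ : ℕ) : 𝓞 F) = ((2 : ℕ) : 𝓞 F) ^ 2 * (3 * ℓ) := by
      push_cast
      ring
    rw [hq, e]
    exact Ideal.mul_mem_right _ _ (Ideal.pow_mem_pow h1' 2)
  have hq2 : (q : 𝓞 F) ∈ P2 := by
    have e : ((2 ^ 2 * 3 * ℓ : ℕ) : 𝓞 F) = ((3 : ℕ) : 𝓞 F) * (2 ^ 2 * ℓ) := by
      push_cast
      ring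
    rw [hq, e]
    exact Ideal.mul_mem_right _ _ h2'
  set A : Fin (n - 1) → 𝓞 F := fun j => a j + q * b j with hA
  have hA1 : ∀ j, A j - (if (j : ℕ) = 0 then π else 0) ∈ P1 ^ 2 := by
    intro j
    have e : A j - (if (j : ℕ) = 0 then π else 0) =
        (a j - (if (j : ℕ) = 0 then π else 0)) + q * b j := by
      rw [hA]; ring
    rw [e]
    exact Ideal.add_mem _ (ha1 j) (Ideal.mul_mem_right _ _ hq1)
  have hA2 : (Ideal.Quotient.mk P2) ∘ A = a2 := by
    funext j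
    rw [Function.comp, hA, map_add, map_mul, ha2, Ideal.Quotient.eq_zero_iff_mem.2 hq2, zero_mul,
      add_zero]
  -- modulo `ℓ`
  have hAℓ : ∀ j, ∃ z : 𝓞 F, A j = c j + ℓ * z := by
    intro j
    obtain ⟨z, hz⟩ := Ideal.mem_span_singleton'.1 (ha3 j)
    refine ⟨z + (2 ^ 2 * 3) * b j, ?_⟩
    have e : a j = c j + z * ℓ := by rw [hz]; ring
    rw [hA, hq]
    simp only
    rw [e]
    push_cast
    ring
  have hρA : ∀ (κ : Type) [Field κ] (i : ZMod ℓ →+* κ) (ρ : 𝓞 F →+* κ) (j : Fin (n - 1)),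
      ρ (A j) = (b0 j : κ) + ρ e * (ρ (x3 j) - (b0 j : κ)) := by
    intro κ _ i ρ j
    obtain ⟨z, hz⟩ := hAℓ j
    have h4 : (ℓ : κ) = 0 := by
      have h5 : i ((ℓ : ℕ) : ZMod ℓ) = 0 := by rw [ZMod.natCast_self, map_zero]
      rwa [map_natCast] at h5
    rw [hz, map_add, map_mul, map_natCast, h4, zero_mul, add_zero]
    simp only [c, map_add, map_mul, map_sub, map_intCast]
  have hA3 : (Ideal.Quotient.mk P3) ∘ A = a3 := by
    funext j
    have h4 := hρA (𝓞 F ⧸ P3) i3 (Ideal.Quotient.mk P3) j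
    rw [(he (𝓞 F ⧸ P3) i3 (Ideal.Quotient.mk P3)).1 ht, hx3, one_mul, add_sub_cancel] at h4
    exact h4
  have hA0 : ∀ (κ : Type) [Field κ] (i : ZMod ℓ →+* κ) (ρ : 𝓞 F →+* κ), ρ θ ≠ i t →
      ∀ j, ρ (A j) = i (b0 j : ZMod ℓ) := by
    intro κ _ i ρ hne j
    rw [hρA κ i ρ j, (he κ i ρ).2 hne, zero_mul, add_zero, map_intCast]
  have hmon : (P n A).Monic := P_monic _ (by omega)
  have hdeg : (P n A).natDegree = n := P_natDegree _ (by omega)
  have hP12 : P1 ^ 2 ≤ P1 := Ideal.pow_le_self (by norm_num)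
  have hE : (P n A).IsEisensteinAt P1 := by
    refine ⟨?_, ?_, ?_⟩
    · rw [hmon.leadingCoeff]
      exact fun h => h1.ne_top ((Ideal.eq_top_iff_one P1).2 h)
    · intro m hm
      rw [hdeg] at hm
      rcases Nat.lt_or_ge m (n - 1) with h | h
      · have h4 := P_coeff A ⟨m, h⟩
        rw [show ((⟨m, h⟩ : Fin (n - 1)) : ℕ) = m from rfl] at h4
        rw [h4]
        have h5 := hP12 (hA1 ⟨m, h⟩)
        have h6 : (if m = 0 then π else 0) ∈ P1 := by
          split_ifs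
          · exact hπ
          · exact P1.zero_mem
        have := P1.add_mem h5 h6
        simpa using this
      · have : m = n - 1 := by omega
        rw [this, P_coeff_pred _ (by omega)]
        exact P1.zero_mem
    · have h4 := P_coeff A ⟨0, by omega⟩
      rw [show ((⟨0, by omega⟩ : Fin (n - 1)) : ℕ) = 0 from rfl] at h4
      rw [h4]
      intro h
      apply hπ2
      have h5 := hA1 ⟨0, by omega⟩
      simp only [if_true] at h5
      exact (Submodule.sub_mem_iff_right _ h).1 h5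
  have hirr : Irreducible ((P n A).map (algebraMap (𝓞 F) F)) := by
    have h4 := hE.irreducible h1.isPrime hmon.isPrimitive (by rw [hdeg]; omega)
    exact (hmon.irreducible_iff_irreducible_map_fraction_map (K := F)).1 h4
  have hmap : (P n A).map (algebraMap (𝓞 F) F) = P n fun j => ((a j + q * b j : 𝓞 F) : F) := by
    rw [P_map]
    rfl
  have r2 : (P n A).map (Ideal.Quotient.mk P2) = (X - C c2') * π2 := by rw [P_map, hA2, e2]
  have r3 : (P n A).map (Ideal.Quotient.mk P3) = π3 * ∏ c ∈ S3, (X - C c) := by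
    rw [P_map, hA3, e3]
  refine ⟨hmap ▸ hirr, fun α hα => ⟨?_, ?_⟩⟩
  · refine full_of_surj (f := P n A) hmon hirr ?_ (by rw [hmap]; exact hα)
    intro E _ _ _ _ hspl
    exact surj_of P2 P3 hmon hirr i2 d2 r2 i3' d3 r3 E hspl
  · exact tr_of K hn P3 hθ hgθ hspl hsep i3 t ht hirr i3' d3 r3 e0 hA0 (by rw [hmap]; exact hα)

end Pool.Agent.Helper313WR
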