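import Pool.Agent.Helper313WR.A4

/-!
# The full wreath product
-/

set_option autoImplicit false
set_option linter.all false

open Module Polynomial NumberField IntermediateField
open scoped Classical

namespace Pool.Agent.Helper313WR

open Pool.Agent.Helper313LB Pool.Agent.Helper313SN

variable (K : Type) {F Ω : Type} [Field K] [NumberField K] [Field F] [NumberField F] [Field Ω]
  [CharZero Ω] [Algebra K F] [Algebra K Ω] [Algebra F Ω] [IsScalarTower K F Ω]

/-- the action of the automorphisms on the embeddings -/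
def act (L : IntermediateField F Ω) : (Ω ≃ₐ[K] Ω) →* Equiv.Perm (L →ₐ[K] Ω) where
  toFun σ :=
    { toFun := fun φ => σ.toAlgHom.comp φ
      invFun := fun φ => σ.symm.toAlgHom.comp φ
      left_inv := fun φ => by
        ext x
        exact σ.symm_apply_apply _
      right_inv := fun φ => by
        ext x
        exact σ.apply_symm_apply _ }
  map_one' := by
    ext φ x
    rfl
  map_mul' σ τ := by
    ext φ x
    rfl

theorem act_apply (L : IntermediateField F Ω) (σ : Ω ≃ₐ[K] Ω) (φ : L →ₐ[K] Ω) :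
    act K L σ φ = σ.toAlgHom.comp φ := rfl

/-- restriction of embeddings to `F` -/
def res (L : IntermediateField F Ω) (φ : L →ₐ[K] Ω) : F →ₐ[K] Ω :=
  φ.comp (IsScalarTower.toAlgHom K F L)

theorem res_act (L : IntermediateField F Ω) (σ : Ω ≃ₐ[K] Ω) (φ : L →ₐ[K] Ω) :
    res K L (act K L σ φ) = σ.toAlgHom.comp (res K L φ) := rfl

/-- the inclusion of `F` -/
def inc : F →ₐ[K] Ω := IsScalarTower.toAlgHom K F Ω

theorem swap_F {L : IntermediateField F Ω} (hfull : Full L) (htr : Tr K L)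
    (a1 a2 : L →ₐ[F] Ω) (hne : a1 ≠ a2) :
    Equiv.swap (a1.restrictScalars K) (a2.restrictScalars K) ∈ (act K L).range := by
  obtain ⟨τ, φ, φ', hφ, hτ⟩ := htr
  obtain ⟨π, h1, h2⟩ : ∃ π : Equiv.Perm (L →ₐ[F] Ω), π φ = a1 ∧ π φ' = a2 := by
    refine ⟨Equiv.swap a2 (Equiv.swap φ a1 φ') * Equiv.swap φ a1, ?_, ?_⟩
    · rw [Equiv.Perm.mul_apply, Equiv.swap_apply_left]
      refine Equiv.swap_apply_of_ne_of_ne hne ?_
      intro h3
      apply hφ
      have h4 : Equiv.swap φ a1 φ = Equiv.swap φ a1 φ' := by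
        rw [Equiv.swap_apply_left]
        exact h3
      exact (Equiv.swap φ a1).injective h4
    · rw [Equiv.Perm.mul_apply, Equiv.swap_apply_right]
  obtain ⟨s, hs⟩ := hfull π
  let s' : Ω ≃ₐ[K] Ω := s.restrictScalars K
  have e1 : act K L s' (φ.restrictScalars K) = a1.restrictScalars K := by
    rw [← h1, ← hs φ]
    rfl
  have e2 : act K L s' (φ'.restrictScalars K) = a2.restrictScalars K := by
    rw [← h2, ← hs φ']
    rfl
  have e3 : act K L τ = Equiv.swap (φ.restrictScalars K) (φ'.restrictScalars K) := by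
    ext1 ψ
    exact hτ ψ
  rw [← e1, ← e2, Equiv.swap_apply_apply, ← e3]
  exact ⟨s' * τ * s'⁻¹, by rw [map_mul, map_mul, map_inv]⟩

variable [IsAlgClosed Ω] [Normal K Ω]

theorem exists_lift (y : F →ₐ[K] Ω) : ∃ ρ : Ω ≃ₐ[K] Ω, ∀ x : F, ρ (algebraMap F Ω x) = y x := by
  haveI : Algebra.IsAlgebraic K Ω := inferInstance
  refine ⟨AlgEquiv.ofBijective (y.liftNormal Ω) (Algebra.IsAlgebraic.algHom_bijective _), ?_⟩
  intro x
  exact y.liftNormal_commutes Ω x

theorem swap_fib {L : IntermediateField F Ω} (hfull : Full L) (htr : Tr K L)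
    (φ₁ φ₂ : L →ₐ[K] Ω) (hne : φ₁ ≠ φ₂) (h : res K L φ₁ = res K L φ₂) :
    Equiv.swap φ₁ φ₂ ∈ (act K L).range := by
  obtain ⟨ρ, hρ⟩ := exists_lift K (res K L φ₁)
  have hlin : ∀ φ : L →ₐ[K] Ω, res K L φ = res K L φ₁ →
      ∃ a : L →ₐ[F] Ω, act K L ρ (a.restrictScalars K) = φ := by
    intro φ hφ
    have h1 : ∀ x : F, ρ.symm (φ (algebraMap F L x)) = algebraMap F Ω x := by
      intro x
      rw [AlgEquiv.symm_apply_eq, hρ]
      have := congrArg (fun f : F →ₐ[K] Ω => f x) hφ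
      exact this
    let a : L →ₐ[F] Ω := { (ρ.symm.toAlgHom.comp φ : L →+* Ω) with commutes' := h1 }
    refine ⟨a, ?_⟩
    ext x
    exact ρ.apply_symm_apply _
  obtain ⟨a1, ha1⟩ := hlin φ₁ rfl
  obtain ⟨a2, ha2⟩ := hlin φ₂ h.symm
  have hne' : a1 ≠ a2 := by
    rintro rfl
    exact hne (ha1.symm.trans ha2)
  obtain ⟨σ, hσ⟩ := swap_F K hfull htr a1 a2 hne'
  rw [← ha1, ← ha2, Equiv.swap_apply_apply, ← hσ]
  exact ⟨ρ * σ * ρ⁻¹, by rw [map_mul, map_mul, map_inv]⟩

theorem fib_mem {L : IntermediateField F Ω} [Fintype (L →ₐ[K] Ω)] (hfull : Full L)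
    (htr : Tr K L) : ∀ (m : ℕ) (π : Equiv.Perm (L →ₐ[K] Ω)), π.support.card = m →
      (∀ φ, res K L (π φ) = res K L φ) → π ∈ (act K L).range := by
  intro m
  induction m using Nat.strong_induction_on with
  | _ m ih =>
    intro π hm hπ
    by_cases h1 : π = 1
    · rw [h1]
      exact Subgroup.one_mem _
    obtain ⟨φ, hφ⟩ : ∃ φ, π φ ≠ φ := by
      by_contra hcon
      push Not at hcon
      exact h1 (Equiv.ext hcon)
    have h2 := Equiv.Perm.card_support_swap_mul hφ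
    have h3 : Equiv.swap φ (π φ) ∈ (act K L).range :=
      swap_fib K hfull htr φ (π φ) (Ne.symm hφ) (hπ φ).symm
    have h4 : ∀ ψ, res K L (Equiv.swap φ (π φ) ψ) = res K L ψ := by
      intro ψ
      by_cases h5 : ψ = φ
      · rw [h5, Equiv.swap_apply_left, hπ]
      by_cases h6 : ψ = π φ
      · rw [h6, Equiv.swap_apply_right, hπ]
      rw [Equiv.swap_apply_of_ne_of_ne h5 h6]
    have h5 := ih _ (hm ▸ h2) (Equiv.swap φ (π φ) * π) rfl (fun ψ => by
      rw [Equiv.Perm.mul_apply, h4, hπ])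
    have h6 : π = Equiv.swap φ (π φ) * (Equiv.swap φ (π φ) * π) := by
      rw [← mul_assoc, Equiv.swap_mul_self, one_mul]
    rw [h6]
    exact Subgroup.mul_mem _ h3 h5

/-- every permutation of the embeddings which is compatible with an automorphism on the embeddings
of `F` comes from an automorphism -/
theorem wr_of {L : IntermediateField F Ω} [Finite (L →ₐ[K] Ω)] (hfull : Full L) (htr : Tr K L)
    (π : Equiv.Perm (L →ₐ[K] Ω)) (ρ : Ω ≃ₐ[K] Ω)
    (hπ : ∀ φ, res K L (π φ) = ρ.toAlgHom.comp (res K L φ)) :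
    ∃ σ : Ω ≃ₐ[K] Ω, ∀ φ : L →ₐ[K] Ω, σ.toAlgHom.comp φ = π φ := by
  haveI := Fintype.ofFinite (L →ₐ[K] Ω)
  have h1 : (act K L ρ)⁻¹ * π ∈ (act K L).range := by
    refine fib_mem K hfull htr _ _ rfl fun φ => ?_
    rw [Equiv.Perm.mul_apply, ← map_inv, res_act, hπ]
    ext x
    exact ρ.symm_apply_apply _
  obtain ⟨σ, hσ⟩ := h1
  refine ⟨ρ * σ, fun φ => ?_⟩
  rw [← act_apply, map_mul, hσ, mul_inv_cancel_left]

end Pool.Agent.Helper313WR
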