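import Pool.Agent.Helper313WR.A6
import Pool.Agent.Helper313WR.A7

/-!
# Many extensions whose group is a wreath product
-/

set_option autoImplicit false
set_option linter.all false

open Module Polynomial NumberField IntermediateField Filter Topology
open scoped Classical

namespace Pool.Agent.Helper313WR

open Pool.Agent.Helper313LB Pool.Agent.Helper313SN

section grp

variable (K : Type) {F Ω : Type} [Field K] [NumberField K] [Field F] [NumberField F] [Field Ω]
  [CharZero Ω] [Algebra K F] [Algebra K Ω] [Algebra F Ω] [IsScalarTower K F Ω]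
  [IsAlgClosed Ω] [Normal K Ω]

theorem card_fib {k : ℕ} (hk : k ≠ 0) (L : IntermediateField F Ω) (hL : finrank F L = k)
    (y : F →ₐ[K] Ω) :
    Nonempty ({φ : L →ₐ[K] Ω // res K L φ = y} ≃ Fin k) := by
  haveI : FiniteDimensional F L := FiniteDimensional.of_finrank_pos (by omega)
  obtain ⟨ρ, hρ⟩ := exists_lift K y
  let g : (L →ₐ[F] Ω) → {φ : L →ₐ[K] Ω // res K L φ = y} := fun a =>
    ⟨act K L ρ (a.restrictScalars K), by
      ext x
      have h1 : a (algebraMap F L x) = algebraMap F Ω x := a.commutes x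
      change ρ (a (algebraMap F L x)) = y x
      rw [h1, hρ]⟩
  have hg : Function.Bijective g := by
    constructor
    · intro a b h
      have h1 := (act K L ρ).injective (congrArg Subtype.val h)
      ext x
      exact congrArg (fun φ : L →ₐ[K] Ω => φ x) h1
    · rintro ⟨φ, hφ⟩
      have h1 : ∀ x : F, ρ.symm (φ (algebraMap F L x)) = algebraMap F Ω x := by
        intro x
        rw [AlgEquiv.symm_apply_eq, hρ]
        exact congrArg (fun f : F →ₐ[K] Ω => f x) hφ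
      let a : L →ₐ[F] Ω := { (ρ.symm.toAlgHom.comp φ : L →+* Ω) with commutes' := h1 }
      refine ⟨a, ?_⟩
      apply Subtype.ext
      ext x
      exact ρ.apply_symm_apply _
  have hc : Fintype.card (L →ₐ[F] Ω) = k := by rw [AlgHom.card F L Ω, hL]
  exact ⟨(Equiv.ofBijective g hg).symm.trans (Fintype.equivFinOfCardEq hc)⟩

theorem perm_iff {h k n : ℕ} (hk : k ≠ 0) (L : IntermediateField F Ω) [Finite (L →ₐ[K] Ω)]
    (hL : finrank F L = k) (hfull : Full L) (htr : Tr K L) (H : Subgroup (Equiv.Perm (Fin h)))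
    (e0 : (F →ₐ[K] Ω) ≃ Fin h)
    (he0 : ∀ η : Equiv.Perm (Fin h), η ∈ H ↔ ∃ ρ : Ω ≃ₐ[K] Ω, ∀ y : F →ₐ[K] Ω,
      e0 (ρ.toAlgHom.comp y) = η (e0 y))
    (G : Subgroup (Equiv.Perm (Fin n))) (f : Fin n ≃ Fin h × Fin k)
    (hf : ∀ π : Equiv.Perm (Fin n), π ∈ G ↔ ∃ η ∈ H, ∀ i, (f (π i)).1 = η (f i).1) :
    ∃ e : (L →ₐ[K] Ω) ≃ Fin n, ∀ π : Equiv.Perm (Fin n), π ∈ G ↔ ∃ σ : Ω ≃ₐ[K] Ω,
      ∀ φ : L →ₐ[K] Ω, e (σ.toAlgHom.comp φ) = π (e φ) := by
  have hc : ∀ y : F →ₐ[K] Ω, Nonempty ({φ : L →ₐ[K] Ω // res K L φ = y} ≃ Fin k) :=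
    card_fib K hk L hL
  let c : ∀ y : F →ₐ[K] Ω, {φ : L →ₐ[K] Ω // res K L φ = y} ≃ Fin k := fun y => (hc y).some
  let E : (L →ₐ[K] Ω) ≃ Fin h × Fin k :=
    (Equiv.sigmaFiberEquiv (res K L)).symm.trans ((Equiv.sigmaCongrRight c).trans
      ((Equiv.sigmaEquivProd _ _).trans (Equiv.prodCongr e0 (Equiv.refl _))))
  have hE : ∀ φ, (E φ).1 = e0 (res K L φ) := fun φ => rfl
  let e : (L →ₐ[K] Ω) ≃ Fin n := E.trans f.symm
  have he : ∀ φ, (f (e φ)).1 = e0 (res K L φ) := by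
    intro φ
    have : f (e φ) = E φ := f.apply_symm_apply _
    rw [this, hE]
  refine ⟨e, fun π => ?_⟩
  rw [hf]
  constructor
  · rintro ⟨η, hη, hπ⟩
    obtain ⟨ρ, hρ⟩ := (he0 η).1 hη
    let π' : Equiv.Perm (L →ₐ[K] Ω) := (e.trans π).trans e.symm
    have hπ' : ∀ φ, e (π' φ) = π (e φ) := fun φ => e.apply_symm_apply _
    obtain ⟨σ, hσ⟩ := wr_of K hfull htr π' ρ (fun φ => by
      apply e0.injective
      rw [hρ, ← he, hπ', hπ, he])
    exact ⟨σ, fun φ => by rw [hσ, hπ']⟩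
  · rintro ⟨σ, hσ⟩
    let s : Equiv.Perm (F →ₐ[K] Ω) :=
      { toFun := fun y => σ.toAlgHom.comp y
        invFun := fun y => σ.symm.toAlgHom.comp y
        left_inv := fun y => by
          ext x
          exact σ.symm_apply_apply _
        right_inv := fun y => by
          ext x
          exact σ.apply_symm_apply _ }
    let η : Equiv.Perm (Fin h) := (e0.symm.trans s).trans e0
    have hη : ∀ y, e0 (σ.toAlgHom.comp y) = η (e0 y) := by
      intro y
      change _ = e0 (s (e0.symm (e0 y)))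
      rw [e0.symm_apply_apply]
      rfl
    refine ⟨η, (he0 η).2 ⟨σ, hη⟩, fun i => ?_⟩
    obtain ⟨φ, rfl⟩ := e.surjective i
    rw [← hσ, he, he, ← hη]
    rfl

end grp

end Pool.Agent.Helper313WR
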