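import Pool.Agent.Helper313WR.A8

/-!
# The lower bound for wreath products
-/

set_option autoImplicit false
set_option linter.all false

open Module Polynomial NumberField IntermediateField Filter Topology
open scoped Classical

namespace Pool.Agent.Helper313WR

open Pool.Agent.Helper313LB Pool.Agent.Helper313SN

variable (K Ω : Type) [Field K] [NumberField K] [Field Ω] [CharZero Ω] [Algebra K Ω]
  [IsAlgClosed Ω] [Normal K Ω]

/-- the extensions of degree `n` with group `G` and `|d_L| ≤ Y` -/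
def GFld (n : ℕ) (G : Subgroup (Equiv.Perm (Fin n))) (Y : ℝ) : Set (IntermediateField K Ω) :=
  {L | Module.finrank K L = n ∧
    (∃ e : (L →ₐ[K] Ω) ≃ Fin n, ∀ π : Equiv.Perm (Fin n),
      π ∈ G ↔ ∃ σ : Ω ≃ₐ[K] Ω, ∀ φ : L →ₐ[K] Ω, e (σ.toAlgHom.comp φ) = π (e φ)) ∧
    ∃ h : NumberField L, ((|@NumberField.discr L _ h| : ℤ) : ℝ) ≤ Y}

theorem finite_GFld {n : ℕ} (G : Subgroup (Equiv.Perm (Fin n))) (Y : ℝ) :
    (GFld K Ω n G Y).Finite :=
  (finite_Fld K Ω Y (n := n)).subset fun _ h => ⟨h.1, h.2.2⟩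

theorem wreath_lower {k h n : ℕ} (hk : 3 ≤ k) (H : Subgroup (Equiv.Perm (Fin h)))
    (hocc : ∃ Y, (GFld K Ω h H Y).Nonempty) (G : Subgroup (Equiv.Perm (Fin n)))
    (f : Fin n ≃ Fin h × Fin k)
    (hf : ∀ π : Equiv.Perm (Fin n), π ∈ G ↔ ∃ η ∈ H, ∀ i, (f (π i)).1 = η (f i).1) :
    ∃ c : ℝ, 0 < c ∧ ∀ᶠ Y : ℝ in atTop,
      c * Y ^ (1 / 2 + 1 / k : ℝ) ≤ ((GFld K Ω n G Y).ncard : ℝ) := by
  obtain ⟨Y0, F, hF, ⟨e0, he0⟩, hnf, -⟩ := hocc
  haveI : NumberField F := hnf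
  haveI : IsScalarTower ℚ K F := IsScalarTower.of_algebraMap_eq' (Subsingleton.elim _ _)
  haveI : FiniteDimensional K F := FiniteDimensional.right ℚ K F
  haveI : Normal F Ω := Normal.tower_top_of_normal K F Ω
  obtain ⟨c, hc, hlow⟩ := Q_lower (F := F) (Ω := Ω) (Q := fun L => Full L ∧ Tr K L)
    (fun L h => h.1) hk (exists_baseW K F Ω hk)
  refine ⟨c, hc, ?_⟩
  filter_upwards [hlow] with Y hY
  refine hY.trans ?_
  have hn : n = h * k := by
    have := Fintype.card_congr f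
    rwa [Fintype.card_prod, Fintype.card_fin, Fintype.card_fin, Fintype.card_fin] at this
  let g : IntermediateField F Ω → IntermediateField K Ω := fun L => L.restrictScalars K
  have hg : Function.Injective g := restrictScalars_injective K
  have h1 : (QFld (fun L : IntermediateField F Ω => Full L ∧ Tr K L) k Y).ncard ≤
      (GFld K Ω n G Y).ncard := by
    rw [← Set.ncard_image_of_injective _ hg]
    refine Set.ncard_le_ncard ?_ (finite_GFld K Ω G Y)
    rintro _ ⟨L, ⟨h1, ⟨h2, h3⟩, hnfL, h4⟩, rfl⟩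
    haveI : FiniteDimensional F L := FiniteDimensional.of_finrank_pos (by omega)
    haveI : FiniteDimensional K L := FiniteDimensional.trans K F L
    haveI : Finite (L →ₐ[K] Ω) := inferInstance
    refine ⟨?_, perm_iff K (by omega) L h1 h2 h3 H e0 he0 G f hf, hnfL, h4⟩
    rw [hn, ← hF, ← h1]
    exact (finrank_mul_finrank K F L).symm
  exact_mod_cast h1

/-- with relative discriminants -/
theorem wreath_rel {k h n : ℕ} (hk : 3 ≤ k) (H : Subgroup (Equiv.Perm (Fin h)))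
    (hocc : ∃ Y, (GFld K Ω h H Y).Nonempty) (G : Subgroup (Equiv.Perm (Fin n)))
    (f : Fin n ≃ Fin h × Fin k)
    (hf : ∀ π : Equiv.Perm (Fin n), π ∈ G ↔ ∃ η ∈ H, ∀ i, (f (π i)).1 = η (f i).1) :
    ∃ c : ℝ, 0 < c ∧ ∀ᶠ X : ℝ in atTop,
      c * X ^ (1 / 2 + 1 / k : ℝ) ≤
        ((GFld K Ω n G (X * ((|discr K| : ℤ) : ℝ) ^ n)).ncard : ℝ) := by
  obtain ⟨c, hc, hlow⟩ := wreath_lower K Ω hk H hocc G f hf
  set D : ℝ := ((|discr K| : ℤ) : ℝ) ^ n with hD
  have hD0 : 0 < D := by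
    have : (0 : ℝ) < ((|discr K| : ℤ) : ℝ) := by
      exact_mod_cast abs_pos.2 (discr_ne_zero K)
    positivity
  refine ⟨c * D ^ (1 / 2 + 1 / k : ℝ), by positivity, ?_⟩
  have ht : Tendsto (fun X : ℝ => X * D) atTop atTop := tendsto_id.atTop_mul_const hD0
  filter_upwards [ht.eventually hlow, eventually_gt_atTop 0] with X hX hX0
  refine le_trans (le_of_eq ?_) hX
  rw [Real.mul_rpow hX0.le hD0.le]
  ring

/-- `S_n` occurs -/
theorem occurs_top {n : ℕ} (hn : 3 ≤ n) : ∃ Y, (GFld K Ω n ⊤ Y).Nonempty := by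
  obtain ⟨c, hc, hlow⟩ := full_lower K Ω hn
  obtain ⟨Y, hY, hY1⟩ := (hlow.and (eventually_gt_atTop (1 : ℝ))).exists
  have h1 : 0 < (FullFld K Ω n Y).ncard := by
    have : (0 : ℝ) < c * Y ^ (1 / 2 + 1 / n : ℝ) := by positivity
    exact_mod_cast lt_of_lt_of_le this hY
  obtain ⟨L, h2, h3, h4⟩ := (Set.ncard_pos (finite_FullFld K Ω n Y)).1 h1
  refine ⟨Y, L, h2, ?_, h4⟩
  have hfd : FiniteDimensional K L := FiniteDimensional.of_finrank_pos (by omega)
  have hcard : Fintype.card (L →ₐ[K] Ω) = n := by rw [AlgHom.card K L Ω, h2]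
  let e : (L →ₐ[K] Ω) ≃ Fin n := Fintype.equivFinOfCardEq hcard
  refine ⟨e, fun π => ⟨fun _ => ?_, fun _ => Subgroup.mem_top _⟩⟩
  obtain ⟨σ, hσ⟩ := h3 (e.symm.permCongr π)
  refine ⟨σ, fun φ => ?_⟩
  rw [hσ φ, Equiv.permCongr_apply, Equiv.symm_symm, Equiv.apply_symm_apply]

end Pool.Agent.Helper313WR
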